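import Pool.Agent.H66.GUA.Targets
import Pool.Agent.H77.DP.LB

/-!
[LA] The comparison for one prime and one cube (project GU on `MP_c59857_nt`, board
`gua_modules`).
-/

set_option autoImplicit false

open Finset Filter Topology

namespace Pool.Agent.H61.GUA

open Pool.Agent.H31.DP
open Pool.Agent.H31.DPD
open Pool.Agent.H66.GUA

open Classical in
/-- the product over the cube, cut to the cubes in `[1, M]` -/
noncomputable def aa {l d : ℕ} (h : Fin l → ℕ) (p M : ℕ) (z : Fin d → ℤ) (y : ℤ) : ℝ :=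
  if y ∈ IC M z then GC h p z y else 0

lemma IC_sub {d : ℕ} (M : ℕ) (z : Fin d → ℤ) : IC M z ⊆ Finset.Icc (1 : ℤ) M := by
  unfold IC
  exact Finset.filter_subset _ _

lemma aa_sum (hCC : T_CC) {l d : ℕ} (h : Fin l → ℕ) (p M : ℕ) (z : Fin d → ℤ) (s₀ : ℤ)
    (b : ℤ → ℝ) :
    ∑ y ∈ Finset.Icc (1 : ℤ) M, b y * (aa h p M z y * aa h p M z (y + s₀)) =
      ∑ y ∈ IC M (cns s₀ z), b y * GC h p (cns s₀ z) y := by
  symm
  refine (Finset.sum_congr rfl fun y hy => ?_).trans (Finset.sum_subset (IC_sub M (cns s₀ z)) ?_)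
  · obtain ⟨h1, h2⟩ := hCC d l h p M s₀ z y
    obtain ⟨h3, h4⟩ := h1.1 hy
    unfold aa
    rw [if_pos h3, if_pos h4, h2]
  · intro y _ hy
    obtain ⟨h1, -⟩ := hCC d l h p M s₀ z y
    unfold aa
    by_cases h3 : y ∈ IC M z
    · have h4 : y + s₀ ∉ IC M z := fun h4 => hy (h1.2 ⟨h3, h4⟩)
      rw [if_neg h4, mul_zero, mul_zero]
    · rw [if_neg h3, zero_mul, mul_zero]

theorem pf_LA (hCC : T_CC) (hDL : T_DL) (hSR : T_SR) (hKR : T_KR) : T_LA := by
  intro d l h p Q M s θ hp hpQ hQ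
  have hp0 : 0 < p := hp.pos
  obtain ⟨z, hz⟩ : ∃ z, z = sm p s := ⟨_, rfl⟩
  have ha0 : ∀ y, y ∉ Finset.Icc (1 : ℤ) M → aa h p M z y = 0 := by
    intro y hy
    unfold aa
    rw [if_neg fun h1 => hy (IC_sub M z h1)]
  have h1 : ∑ y ∈ (IC M z).filter (fun y => (p : ℤ) ∣ y),
      ((GC h p z y : ℝ) : ℂ) * ee (y * (θ / p)) =
      ∑ y ∈ (Finset.Icc (1 : ℤ) M).filter (fun y => (p : ℤ) ∣ y),
        ((aa h p M z y : ℝ) : ℂ) * ee (y * (θ / p)) := by
    refine (Finset.sum_congr rfl fun y hy => ?_).trans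
      (Finset.sum_subset (Finset.filter_subset_filter _ (IC_sub M z)) ?_)
    · unfold aa
      rw [if_pos (Finset.mem_filter.1 hy).1]
    · intro y hy hy'
      have h3 : y ∉ IC M z := fun h3 =>
        hy' (Finset.mem_filter.2 ⟨h3, (Finset.mem_filter.1 hy).2⟩)
      unfold aa
      rw [if_neg h3, Complex.ofReal_zero, zero_mul]
  have h2 := hDL d l h p M s θ hp
  rw [← hz, h1] at h2
  have h3 := hSR (aa h p M z) M p θ hp0 ha0
  rw [h2] at h3
  -- the correlations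
  have h4 : ∀ s₀ : ℤ, ∑ y ∈ Finset.Icc (1 : ℤ) M, aa h p M z y * aa h p M z (y + s₀) =
      CAc h p M (cns s₀ z) := by
    intro s₀
    have := aa_sum hCC h p M z s₀ fun _ => 1
    simp only [one_mul] at this
    exact this
  have h5 : ∀ s₀ : ℤ, ∑ y ∈ Finset.Icc (1 : ℤ) M, (1 + bal p y) *
      (aa h p M z y * aa h p M z (y + s₀)) =
      CAc h p M (cns s₀ z) + TTc h p M (cns s₀ z) := by
    intro s₀
    rw [aa_sum hCC h p M z s₀ fun y => 1 + bal p y]
    unfold CAc TTc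
    rw [← Finset.sum_add_distrib]
    refine Finset.sum_congr rfl fun y _ => ?_
    ring
  have h6 : ∑ s₀ ∈ mul p M, ee (s₀ * (θ / p)) *
      ((∑ y ∈ Finset.Icc (1 : ℤ) M, (1 + bal p y) *
        (aa h p M z y * aa h p M z (y + s₀)) : ℝ) : ℂ) =
      RZ h p p M z (θ / p) +
        ∑ s₀ ∈ mul p M, ee (s₀ * (θ / p)) * ((TTc h p M (cns s₀ z) : ℝ) : ℂ) := by
    unfold RZ
    rw [← Finset.sum_add_distrib]
    refine Finset.sum_congr rfl fun s₀ _ => ?_
    rw [h5 s₀, Complex.ofReal_add, mul_add]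
  have h7 : (∑ s₀ ∈ mul p M, ee (s₀ * (θ / p)) * ((TTc h p M (cns s₀ z) : ℝ) : ℂ)).re ≤
      TZ h p M z := by
    refine (Complex.re_le_norm _).trans ((norm_sum_le _ _).trans ?_)
    unfold TZ
    refine Finset.sum_le_sum fun s₀ _ => ?_
    rw [norm_mul, Pool.Agent.H77.DP.norm_ee, one_mul, Complex.norm_real, Real.norm_eq_abs]
  have h8 := hKR (aa h p M z) M p Q θ hp0 hQ hpQ ha0
  simp only [h4] at h8
  have h9 : (p : ℝ) * (RZ h p p M z (θ / p)).re ≤ Q * (RZ h p Q M z (θ / p)).re := h8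
  rw [h3, h6, Complex.add_re, mul_add, ← hz]
  have hp1 : (0 : ℝ) ≤ p := by positivity
  have h10 := mul_le_mul_of_nonneg_left h7 hp1
  linarith

end Pool.Agent.H61.GUA
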